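import Pool.Agent.PLG.Stmts

set_option autoImplicit false

namespace Pool.Agent.PLG.H37

open Module

theorem mlt_mono {E : Type} [NormedAddCommGroup E] {f : ℂ →+ E} {V : AddSubgroup ℂ} {K K' w : ℝ}
    {x : ℂ} (h : Mlt f V K w x) (hK : K ≤ K') : Mlt f V K' w x := by
  obtain ⟨c, h1, h2, h3, h4⟩ := h
  exact ⟨c, h1, h2.trans hK, h3, h4.trans (mul_le_mul_of_nonneg_right hK (norm_nonneg _))⟩

theorem prod_flatten_replicate (l : List ℝ) (q : ℕ) :
    ((List.replicate q l).flatten).prod = l.prod ^ q := by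
  induction q with
  | zero => simp
  | succ q ih => rw [List.replicate_succ, List.flatten_cons, List.prod_append, ih, pow_succ']

theorem length_flatten_replicate (l : List ℝ) (q : ℕ) :
    ((List.replicate q l).flatten).length = q * l.length := by
  induction q with
  | zero => simp
  | succ q ih =>
    rw [List.replicate_succ, List.flatten_cons, List.length_append, ih]
    ring

theorem bck (hBLA : BlaStmt) (hALG : AlgStmt) (hMUL : MulStmt) (hWRD : WrdStmt) (hGEN : GenStmt)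
    (hPRO : ProStmt) (hPOL : PolStmt) (hSEP : SepStmt) : BckStmt := by
  intro E _ _ f G W e A ρ j B K hB hK hKρ hA
  obtain ⟨hN, hT, hL⟩ := hBLA E f G W e ρ j B hB
  have hWc : (5 : ℝ) ≤ W.card := by
    have h3 := hB.large
    have h4 := hB.hB
    nlinarith
  have hWc' : 1 < W.card := by
    have h3 : 5 ≤ W.card := by exact_mod_cast hWc
    omega
  obtain ⟨t₁, h1, t₂, h2, h12⟩ := Finset.one_lt_card.1 hWc'
  obtain ⟨H, hH⟩ : ∃ H : ℝ, H = 9 * B * W.card := ⟨_, rfl⟩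
  rw [← hH] at hN hK
  have hH1 : 1 ≤ H := hN.hH
  have hK1 : 1 ≤ K := by
    have h3 : 1 ≤ H ^ 4 := one_le_pow₀ hH1
    rw [hK]
    linarith
  have hfin : FiniteDimensional ℚ (sp G) := hB.fin
  have hV : Dsc f (lp G t₁) := hB.dsc.lp t₁
  obtain ⟨hL1, hL2⟩ := hL t₁ h1
  -- a shortest nonzero element
  have hne : ((bl f (lp G t₁) ρ).filter fun z => z ≠ 0).Nonempty := by
    by_contra hno
    rw [Finset.not_nonempty_iff_eq_empty] at hno
    have h3 : bs f (lp G t₁) ρ = ⊥ := by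
      unfold bs
      rw [Submodule.span_eq_bot]
      intro z hz
      by_contra hz0
      have h4 : z ∈ (bl f (lp G t₁) ρ).filter fun z => z ≠ 0 := Finset.mem_filter.2 ⟨hz, hz0⟩
      rw [hno] at h4
      simp at h4
    rw [hL1, h3, finrank_bot] at hL2
    have h5 := hB.he
    omega
  obtain ⟨x, hxS, hxmin⟩ := Finset.exists_min_image _ (fun z => ‖f z‖) hne
  obtain ⟨hxb, hx0⟩ := Finset.mem_filter.1 hxS
  obtain ⟨hxV, hxρ⟩ := (mem_bl hV).1 hxb
  have hmin : ∀ y ∈ lp G t₁, y ≠ 0 → ‖f x‖ ≤ ‖f y‖ := by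
    intro y hy hy0
    by_cases h3 : ‖f y‖ ≤ ρ
    · exact hxmin y (Finset.mem_filter.2 ⟨(mem_bl hV).2 ⟨hy, h3⟩, hy0⟩)
    · push Not at h3
      exact hxρ.trans h3.le
  have hxn : 0 < ‖f x‖ := norm_pos hV hxV hx0
  have hx1 : ‖f x‖ ≤ 1 := hxρ.trans hB.hρ
  -- dimensions
  have hspV : sp (lp G t₁) ≤ sp G ⊓ sl t₁ := by
    refine Submodule.span_le.2 ?_
    intro z hz
    exact ⟨le_sp hz.1, hz.2⟩
  have hbsV : ∀ r : ℝ, bs f (lp G t₁) r ≤ sp (lp G t₁) := by
    intro r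
    refine Submodule.span_mono ?_
    intro z hz
    exact ((mem_bl hV).1 hz).1
  have hfin1 : FiniteDimensional ℚ (sp G ⊓ sl t₁ : Submodule ℚ ℂ) :=
    Submodule.finiteDimensional_inf_left _ _
  have hfin2 : FiniteDimensional ℚ (sp (lp G t₁)) :=
    Submodule.finiteDimensional_of_le hspV
  have hdim : finrank ℚ (sp (lp G t₁)) ≤ e := by
    rw [← hL2]
    exact Submodule.finrank_mono hspV
  have hdimb : ∀ r : ℝ, finrank ℚ (bs f (lp G t₁) r) ≤ e := fun r =>
    (Submodule.finrank_mono (hbsV r)).trans hdim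
  have hsep := hSEP E f (lp G t₁) 1 ‖f x‖ e hV zero_le_one hxn hmin (hdimb 1)
  have hj3 : ‖f x‖ ^ e * j ≤ 3 ^ e := by
    have h3 : j ≤ (1 + 2 * 1 / ‖f x‖) ^ e := (hB.lines t₁ h1).trans hsep
    calc ‖f x‖ ^ e * j ≤ ‖f x‖ ^ e * (1 + 2 * 1 / ‖f x‖) ^ e :=
          mul_le_mul_of_nonneg_left h3 (by positivity)
      _ = (‖f x‖ + 2) ^ e := by
          rw [← mul_pow]
          congr 1
          field_simp
      _ ≤ 3 ^ e := pow_le_pow_left₀ (by positivity) (by linarith) e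
  -- smallness
  have hKp : K ^ (e * e + 1) * ‖f x‖ ≤ 1 :=
    (mul_le_mul_of_nonneg_left hxρ (by positivity)).trans hKρ
  have hKn : ∀ n : ℕ, n ≤ e * e + 1 → K ^ n * ‖f x‖ ≤ 1 := by
    intro n hn
    exact (mul_le_mul_of_nonneg_right (pow_le_pow_right₀ hK1 hn) hxn.le).trans hKp
  have hKx : K * ‖f x‖ ≤ 1 := by
    have h3 := hKn 1 (by omega)
    rwa [pow_one] at h3
  -- the algebra
  have hmem : ∀ q ∈ Algebra.adjoin ℚ (Rat4 W t₁ t₂), ((q : ℝ) : ℂ) * x ∈ sp G ⊓ sl t₁ := by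
    intro q hq
    refine ⟨hALG (sp G) W t₁ t₂ hT h1 h2 h12 q hq t₁ h1 x ⟨le_sp hxV.1, hxV.2⟩, ?_⟩
    have h3 : x.im = t₁ * x.re := hxV.2
    show (((q : ℝ) : ℂ) * x).im = t₁ * (((q : ℝ) : ℂ) * x).re
    rw [Complex.re_ofReal_mul, Complex.im_ofReal_mul, h3]
    ring
  let φ : Algebra.adjoin ℚ (Rat4 W t₁ t₂) →ₗ[ℚ] (sp G ⊓ sl t₁ : Submodule ℚ ℂ) :=
    { toFun := fun q => ⟨((q : ℝ) : ℂ) * x, hmem q q.2⟩
      map_add' := by
        intro a b
        apply Subtype.ext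
        simp only [Subalgebra.coe_add, Complex.ofReal_add, Submodule.coe_add]
        ring
      map_smul' := by
        intro c a
        apply Subtype.ext
        simp only [Subalgebra.coe_smul, RingHom.id_apply, Submodule.coe_smul]
        rw [Rat.smul_def, Rat.smul_def]
        push_cast
        ring }
  have hφ : Function.Bijective φ := by
    constructor
    · intro a b hab
      have h3 : ((a : ℝ) : ℂ) * x = ((b : ℝ) : ℂ) * x := congrArg Subtype.val hab
      have h4 := mul_right_cancel₀ hx0 h3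
      exact Subtype.ext (Complex.ofReal_injective h4)
    · rintro ⟨y, hy⟩
      obtain ⟨q, hq, hqy⟩ := hPRO E f G W e ρ j B t₁ t₂ x hB h1 h2 h12 hxV hx0
        (by rw [← hH, ← hK]; exact hKx) y hy
      exact ⟨⟨q, hq⟩, Subtype.ext hqy⟩
  let ψ := LinearEquiv.ofBijective φ hφ
  have hFfin : FiniteDimensional ℚ (Algebra.adjoin ℚ (Rat4 W t₁ t₂)) :=
    LinearEquiv.finiteDimensional ψ.symm
  have hFrk : finrank ℚ (Algebra.adjoin ℚ (Rat4 W t₁ t₂)) = e := by
    rw [ψ.finrank_eq, hL2]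
  obtain ⟨w, hw, hwl⟩ := hGEN (Rat4 W t₁ t₂) e hFfin hFrk
  -- words
  have hword : ∀ l : List ℝ, (∀ q ∈ l, q ∈ Rat4 W t₁ t₂) → ∀ n : ℕ, l.length ≤ n → n ≤ e * e →
      Mlt f (lp G t₁) (K ^ n) l.prod x := by
    intro l hl n hn hne
    have h3 := hWRD E f (lp G t₁) (Rat4 W t₁ t₂) K hK1 (by
      intro q hq z hz hz1
      rw [hK] at hz1 ⊢
      exact hMUL E f G W j H t₁ t₂ q hN h1 h2 h12 hq z hz hz1) l hl x hxV (hKn _ (by omega))
    exact mlt_mono h3 (pow_le_pow_right₀ hK1 hn)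
  have he := hB.he
  have hee : e ≤ e * e := Nat.le_mul_of_pos_left e he
  have hout : ∀ i : Fin e, Alg e A (w i) ∧ Mlt f (lp G t₁) (K ^ e) (w i) x := by
    intro i
    obtain ⟨l, hl1, hl2, hl3⟩ := hwl i
    constructor
    · refine hPOL E f (lp G t₁) e A (K ^ (e * e)) (w i) x hV hfin2 hdim (one_le_pow₀ hK1) hxV hx0
        hmin ?_ hA
      intro q hq
      have h4 := hword ((List.replicate q l).flatten) (by
        intro p hp
        obtain ⟨m, hm1, hm2⟩ := List.mem_flatten.1 hp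
        rw [List.eq_of_mem_replicate hm1] at hm2
        exact hl2 p hm2) (e * e) (by
          rw [length_flatten_replicate]
          exact Nat.mul_le_mul hq hl1) le_rfl
      rw [prod_flatten_replicate, ← hl3] at h4
      exact h4
    · rw [hl3]
      exact hword l hl2 e hl1 hee
  choose hAlg c hc1 hc2 hc3 hc4 using hout
  exact ⟨t₁, h1, x, hxV, hx0, hj3, w, c, hw, fun i =>
    ⟨hc1 i, hc2 i, hAlg i, lp_le (hc3 i), hc4 i⟩⟩

end Pool.Agent.PLG.H37
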