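import Pool.Agent.PLG.Stmts

set_option autoImplicit false

namespace Pool.Agent.PLG.H37

open Module

theorem pro (hBLA : BlaStmt) (hTRA : TraStmt) (hPRA : PraStmt) (hPRF : PrfStmt)
    (hPRC : PrcStmt) : ProStmt := by
  intro E _ _ f G W e ρ j B t₁ t₂ x hB h1 h2 h12 hx hx0 hsm y hy
  by_contra hcon
  push Not at hcon
  obtain ⟨hN, hT, hL⟩ := hBLA E f G W e ρ j B hB
  have hWc : (5 : ℝ) ≤ W.card := by
    have h3 := hB.large
    have h4 := hB.hB
    nlinarith
  have hWc' : 5 ≤ W.card := by exact_mod_cast hWc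
  have hthird : ∀ a b : ℝ, ∃ c ∈ W, c ≠ a ∧ c ≠ b := by
    intro a b
    by_contra hc
    push Not at hc
    have h3 : W ⊆ {a, b} := by
      intro c hcW
      by_cases hca : c = a
      · simp [hca]
      · simp [hc c hcW hca]
    have h4 := Finset.card_le_card h3
    have h5 := Finset.card_le_two (a := a) (b := b)
    omega
  obtain ⟨t₃, h3, h31, h32⟩ := hthird t₁ t₂
  obtain ⟨H, hH⟩ : ∃ H : ℝ, H = 9 * B * W.card := ⟨_, rfl⟩
  rw [← hH] at hN hsm
  have hH1 : 1 ≤ H := hN.hH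
  have hxsp : x ∈ sp G ⊓ sl t₁ := ⟨le_sp hx.1, hx.2⟩
  obtain ⟨π, hπ1, hπ2, hπ3⟩ := hPRA (sp G) W t₁ t₂ t₃ x y hB.fin hT h1 h2 h3 h12
    (Ne.symm h31) (Ne.symm h32) hxsp hy hx0 hcon
  have hxn : 0 < ‖f x‖ := norm_pos hB.dsc hx.1 hx0
  have hH2 : H ≤ H ^ 2 := by nlinarith
  have hH4 : H ^ 2 ≤ H ^ 4 := by nlinarith [sq_nonneg H, sq_nonneg (H ^ 2)]
  have hle1 : ‖f x‖ * (H + 1) ≤ 1 := by
    have h4 : H + 1 ≤ 256 * H ^ 4 := by linarith
    calc ‖f x‖ * (H + 1) ≤ ‖f x‖ * (256 * H ^ 4) := mul_le_mul_of_nonneg_left h4 hxn.le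
      _ = 256 * H ^ 4 * ‖f x‖ := by ring
      _ ≤ 1 := hsm
  have hle2 : 16 * H ^ 2 * ‖f x‖ ≤ 1 := by
    have h4 : 16 * H ^ 2 ≤ 256 * H ^ 4 := by linarith
    exact (mul_le_mul_of_nonneg_right h4 hxn.le).trans hsm
  have hle3 : ‖f x‖ ≤ 2 := by nlinarith
  have hfib : ∀ t ∈ W, Fib f G π t j := by
    intro t ht
    refine hPRF E f G π t j hB.dsc (hB.lines t ht) ?_ ?_ ?_
    · intro z hz
      exact hπ1 t ht z ⟨le_sp hz.1, hz.2⟩
    · by_cases htt : t = t₁
      · subst htt
        exact ⟨x, hx, hx0, hle3, hπ2⟩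
      · obtain ⟨l, hl, hlt, hl1⟩ := hthird t t₁
        obtain ⟨c, hc1, hcH, y', hy', z', hz', hxyz, hn1, hn2⟩ :=
          hTRA E f G W j H t₁ t l hN h1 ht hl (Ne.symm htt) (Ne.symm hl1) (Ne.symm hlt) x hx hle1
        refine ⟨y', hy', ?_, by linarith, ?_⟩
        · intro h0
          have hz0 : (c : ℂ) * x = z' := by rw [hxyz, h0, zero_add]
          have hcx : (c : ℂ) * x ∈ lp G t₁ := mem_of_nat_mul c hx
          have h4 : z' = 0 := by
            refine eq_zero_of_slopes hl1 hz'.2 ?_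
            rw [← hz0]
            exact hcx.2
          rw [h4] at hz0
          rcases mul_eq_zero.1 hz0 with h5 | h5
          · have h6 : c = 0 := by exact_mod_cast h5
            omega
          · exact hx0 h5
        · have h5 : π y' + π z' = 0 := by
            have h4 : (c : ℂ) * x = c • x := by simp
            rw [← map_add, ← hxyz, h4, map_nsmul, hπ2, smul_zero]
          have h6 := hπ1 t ht y' ⟨le_sp hy'.1, hy'.2⟩
          have h7 := hπ1 l hl z' ⟨le_sp hz'.1, hz'.2⟩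
          have h8 : π y' = - π z' := eq_neg_of_add_eq_zero_left h5
          refine eq_zero_of_slopes (Ne.symm hlt) h6 ?_
          rw [h8, Complex.neg_im, Complex.neg_re, h7]
          ring
    · by_contra hno
      push Not at hno
      obtain ⟨m, hm, hm0⟩ := hπ3 t ht
      apply hm0
      rw [(hL t ht).1] at hm
      have h9 : bs f (lp G t) ρ ≤ LinearMap.ker π.toRatLinearMap := by
        unfold bs
        rw [Submodule.span_le]
        intro z hz
        have hz' := (mem_bl (hB.dsc.lp t)).1 hz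
        exact hno z hz'.1 (hz'.2.trans hB.hρ)
      exact h9 hm
  obtain ⟨a, b, hab, hcone⟩ := hB.narrow
  have hj := hB.hj
  have h10 := hPRC E f G W π a b j hB.dsc (by omega) (by linarith) hab hfib
  have h11 := hB.large
  have h12' : (0 : ℝ) < W.card * j ^ 2 := by
    have h13 : (0 : ℝ) < W.card := by linarith
    have h14 : 0 < j := by linarith
    positivity
  have h13 : (W.card : ℝ) ≤ 5184 * B := by
    by_contra hh
    push Not at hh
    have h14 : 5184 * B * (W.card * j ^ 2) < W.card * (W.card * j ^ 2) :=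
      mul_lt_mul_of_pos_right hh h12'
    nlinarith
  linarith

end Pool.Agent.PLG.H37
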